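import Pool.Agent.Helper29.SH.Goals

/-!
# Project SH (MP_0a002a_al), packet BB
-/

set_option autoImplicit false

namespace Pool.Agent.Helper32.SH

open Subgroup Pool.H83Shunkov Pool.Agent.Helper29.SH

/-- **BB**. -/
theorem t_BB : S_AA → S_BO → S_BT → S_SSUB → S_RSUB → S_LFA → S_BB := by
  intro hAA hBO hBT hSS hRS hLFA G _ hRG hSh hInf a ha
  by_cases hfin : (Tor (centralizer ({a} : Set G))).Finite
  · by_cases h2 : orderOf a = 2
    · exact hBT G a hRG hSh hInf h2 hfin
    · exact hBO G a hRG hSh hInf ha h2 hfin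
  have hinj : Function.Injective (centralizer ({a} : Set G)).subtype := Subtype.coe_injective
  have hSh' : IsShunkov (centralizer ({a} : Set G)) := hSS G _ _ hinj hSh
  have hRG' : RG (centralizer ({a} : Set G)) := hRS G _ _ hinj hRG
  have hInf' : InfTor (centralizer ({a} : Set G)) := by
    intro hf
    apply hfin
    apply (hf.image Subtype.val).subset
    rintro t ⟨h1, h2⟩
    refine ⟨⟨t, h1⟩, ?_, rfl⟩
    exact (Submonoid.isOfFinOrder_coe (H := (centralizer ({a} : Set G)).toSubmonoid)
      (x := ⟨t, h1⟩)).mp h2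
  obtain ⟨K, -, hK1, hK2⟩ := hAA _ hRG' hSh' hInf'
  have hL : IsLocFin (K.map (centralizer ({a} : Set G)).subtype) := hK2.map _
  have hLi : ((K.map (centralizer ({a} : Set G)).subtype : Subgroup G) : Set G).Infinite := by
    rw [coe_map]
    exact hK1.image hinj.injOn
  have hInv : Inv a (K.map (centralizer ({a} : Set G)).subtype) := by
    intro k hk
    have hk' := hk
    obtain ⟨c, hc, rfl⟩ := hk'
    have h1 : a * (centralizer ({a} : Set G)).subtype c =
        (centralizer ({a} : Set G)).subtype c * a :=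
      mem_centralizer_iff.mp c.2 a (Set.mem_singleton a)
    have h2 : a⁻¹ * (centralizer ({a} : Set G)).subtype c * a =
        (centralizer ({a} : Set G)).subtype c := by
      rw [mul_assoc, ← h1, inv_mul_cancel_left]
    rw [h2]
    exact hk
  have hao : IsOfFinOrder a := orderOf_pos_iff.mp ha.pos
  refine ⟨K.map (centralizer ({a} : Set G)).subtype ⊔ zpowers a, ?_, ?_,
    hLFA G a _ hao hInv hL⟩
  · exact mem_sup_right (mem_zpowers a)
  · exact hLi.mono (SetLike.coe_subset_coe.mpr le_sup_left)

end Pool.Agent.Helper32.SH
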